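import Pool.Agent.H74.GE.Main

/-! There is no critical contra pair on a cubic expander whose girth is at least a constant times
`1 + log (1 + log n)`: every eulerian (1,2)-weight has a removable circuit. -/

namespace Pool.Agent.Results.MP_472c72_co.ExpanderRemovable

open GE

/-- For every `ε > 0` there is `K ≥ 1` such that every cubic graph `G` with `n` vertices, whose
Laplacian has second smallest eigenvalue at least `ε` and all of whose cycles have length at least
`K (1 + log (1 + log n))`, has a removable circuit for every eulerian (1,2)-weight `w`; in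
particular `(G, w)` is not a critical contra pair. -/
theorem result (ε : ℝ) (hε : 0 < ε) :
    ∃ K : ℝ, 1 ≤ K ∧ ∀ (V : Type) [Fintype V] [Nonempty V] (G : SimpleGraph V),
      IsCubic G → SpectralGap G ε →
      (∀ (v : V) (p : G.Walk v v), p.IsCycle →
        K * (1 + Real.log (1 + Real.log (Fintype.card V))) ≤ p.length) →
      ∀ w : Sym2 V → ℕ, IsWeight12 G w → IsEulerian G w →
        (∃ C, IsRemovable G w C) ∧ ¬ IsCriticalContraPair G w := by
  obtain ⟨K, hK, h⟩ := exists_removable.{0} ε hε
  refine ⟨K, hK, fun V _ _ G h3 hgap hg w h12 hE => ?_⟩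
  have hC := h V G h3 hgap hg w h12 hE
  exact ⟨hC, fun hcr => hcr.2 hC⟩

end Pool.Agent.Results.MP_472c72_co.ExpanderRemovable
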