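import Pool.Agent.H47.TC.Main

/-!
# A parity theorem for contra pairs
-/

namespace Pool.Agent.Results.MP_472c72_co.ForestParity

open Pool.Agent.H66.GD Pool.Agent.H21.PT Pool.Agent.H34CP.Gr H47TC

universe u

/-- Let `G` be a cubic graph with an eulerian `(1,2)`-weight `w`.
(1) If `(G, w)` has no faithful circuit cover, then the sum of `(-1)^|X|` over all sets `X` of
edges of weight two whose addition to the edges of weight one lowers the number of components by
`|X|` is divisible by four. If moreover the edges of weight one form exactly two components, with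
vertex sets `S` and its complement, then the number of edges of weight two between them is
congruent to one modulo four.
(2) If `e` is an edge of weight two and `(G - e, w)` has no faithful circuit cover, then the sum
over the `X` which do not contain `e` is divisible by four.
(3) If `G` is bridgeless, `(G, w)` has no removable circuit and is not the Petersen graph with the
spokes as edges of weight two, then the sum over the `X` which do not contain `e` is divisible by
four for some edge `e` of weight two, and for every such edge if `G` is cyclically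
4-edge-connected. -/
theorem result {V : Type u} [Fintype V] [Nonempty V] (G : SimpleGraph V) (w : Sym2 V → ℕ)
    (hG : Cubic G) (hw : IsWeight G w) :
    (¬ FaithfulCover G w → (4 : ℤ) ∣ forestSum G w ∧
      ∀ S : Set V, S.Nonempty → Sᶜ.Nonempty →
        (∀ u ∈ S, ∀ v ∈ S, (oneUnion G w ∅).Reachable u v) →
        (∀ u ∉ S, ∀ v ∉ S, (oneUnion G w ∅).Reachable u v) →
        (∀ u ∈ S, ∀ v ∉ S, ¬ (oneUnion G w ∅).Adj u v) →
        crossing G w S % 4 = 1) ∧
    (∀ e ∈ G.edgeSet, w e = 2 → ¬ CoverMinus G w e → (4 : ℤ) ∣ forestSumOff G w e) ∧
    (Bridgeless G → (¬ ∃ C : G.Subgraph, Removable G w C) → ¬ IsP10 G w →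
      (∃ e ∈ G.edgeSet, w e = 2 ∧ (4 : ℤ) ∣ forestSumOff G w e) ∧
      (CycConn4 G → ∀ e ∈ G.edgeSet, w e = 2 → (4 : ℤ) ∣ forestSumOff G w e)) := by
  refine ⟨fun hno => ?_, fun e he he2 h => four_dvd_forestSumOff hG hw he he2 h,
    fun hb hno hP => ⟨?_, ?_⟩⟩
  · have h1 := four_dvd_forestSum hG hw hno
    refine ⟨h1, fun S hne hne' hS hS' hcut => ?_⟩
    rw [forestSum_two G w S hS hS' hne hne' hcut] at h1
    omega
  · by_contra hcon
    push Not at hcon
    obtain ⟨e, he, he2⟩ := exists_two hG hw
    exact hP (criterion hG hb hw hno he he2 (hcon e he he2) (Or.inr hcon))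
  · intro hcc e he he2
    by_contra hcon
    exact hP (criterion hG hb hw hno he he2 hcon (Or.inl hcc))

end Pool.Agent.Results.MP_472c72_co.ForestParity
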