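import Pool.Agent.H66.GD.Fin

/-!
# Pairs without removable circuits contain two disjoint alternating odd circuits
-/

namespace Pool.Agent.Results.MP_472c72_co.OddCircuits

open Pool.Agent.H66.GD

universe u

/-- Let `G` be a connected bridgeless cubic graph with an eulerian `(1,2)`-weight `w` and without
removable circuit. For every vertex `ρ` there are two disjoint odd circuits whose edges have the
weights `1, 2, 1, …, 2, 1`, and the first one avoids `ρ`. If `G` is cyclically
4-edge-connected, then both have length at least five and at least four components of the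
subgraph of the edges of weight two are single edges. -/
theorem result {V : Type u} [Fintype V] (G : SimpleGraph V) (w : Sym2 V → ℕ) (hG : Cubic G)
    (hc : G.Connected) (hb : Bridgeless G) (hw : IsWeight G w)
    (hno : ¬ ∃ C : G.Subgraph, Removable G w C) :
    (∀ ρ : V, ∃ s t, 1 ≤ s ∧ 1 ≤ t ∧ (CycConn4 G → 2 ≤ s ∧ 2 ≤ t) ∧
      ∃ (x : Fin (2 * s + 1) → V) (y : Fin (2 * t + 1) → V),
      OddCirc G w s x ∧ OddCirc G w t y ∧ (∀ i j, x i ≠ y j) ∧ ∀ i, x i ≠ ρ) ∧
    (CycConn4 G → 4 ≤ {e | SingleComp G w e}.ncard) :=
  final hG hc hb hw hno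

end Pool.Agent.Results.MP_472c72_co.OddCircuits
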