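import Pool.Agent.H48.FJ.Nz

/-!
# Pairs without removable circuit in which deleting an edge of weight two leaves a coverable pair
or a 3-edge-colourable graph
-/

namespace Pool.Agent.Results.MP_472c72_co.OneEdgeCover

open Pool.Agent.H66.GD Pool.Agent.H34CP.Gr H48FJ

universe u

/-- Let `G` be a finite bridgeless cubic graph with an eulerian `(1,2)`-weight `w` and without
removable circuit. Call an edge `e` of weight two good if `(G - e, w)` has a faithful circuit cover
or if `G - e` (with the ends of `e` suppressed) is 3-edge-colourable. If some edge of weight two is
good and `G` is cyclically 4-edge-connected, or if every edge of weight two is good, and there is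
one, then `(G, w)` is isomorphic to the Petersen graph in which the edges of one perfect matching
(the spokes) have weight two and the others have weight one. -/
theorem result {V : Type u} [Fintype V] (G : SimpleGraph V) (w : Sym2 V → ℕ) (hG : Cubic G)
    (hb : Bridgeless G) (hw : IsWeight G w) (hno : ¬ ∃ C : G.Subgraph, Removable G w C)
    (e : Sym2 V) (he : e ∈ G.edgeSet) (h2 : w e = 2) (hcov : CoverMinus G w e ∨ ColMinus G e)
    (hcc : CycConn4 G ∨ ∀ f ∈ G.edgeSet, w f = 2 → CoverMinus G w f ∨ ColMinus G f) :
    IsP10 G w :=
  H48FJ.one_or_all' hG hb hw hno he h2 hcov hcc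

end Pool.Agent.Results.MP_472c72_co.OneEdgeCover
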